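import Pool.Agent.W890.SF.Stm2

set_option autoImplicit false

namespace Pool.Agent.W816.SAM.Uni

open Pool.Agent.W890.SF

noncomputable def L (x v : ℝ) : ℝ := Real.log (1 - x / v)

theorem L_deriv (x v : ℝ) (hx : 0 < x) (hv : x < v) :
    HasDerivAt (L x) (x / (v * (v - x))) v := by
  have hv0 : v ≠ 0 := (hx.trans hv).ne'
  have hvx : v - x ≠ 0 := (sub_pos.2 hv).ne'
  have h1 : HasDerivAt (fun v : ℝ => 1 - x / v) (-(x * (-(v ^ 2)⁻¹))) v := by
    have := ((hasDerivAt_inv hv0).const_mul x).const_sub 1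
    simpa [div_eq_mul_inv] using this
  have h2 : (1 - x / v) ≠ 0 := by
    rw [one_sub_div hv0]
    exact div_ne_zero hvx hv0
  have h3 := h1.log h2
  have e : -(x * (-(v ^ 2)⁻¹)) / (1 - x / v) = x / (v * (v - x)) := by
    rw [one_sub_div hv0]
    field_simp
  rw [e] at h3
  exact h3

theorem L_le (x v : ℝ) (hx : 0 < x) (hv : x < v) : L x v ≤ -(2 * x / (2 * v - x)) := by
  have hv0 : 0 < v := hx.trans hv
  have hvx : 0 < v - x := sub_pos.2 hv
  have h1 := Real.le_log_one_add_of_nonneg (x := x / (v - x)) (by positivity)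
  have h2 : L x v = -Real.log (1 + x / (v - x)) := by
    unfold L
    rw [← Real.log_inv]
    congr 1
    field_simp
    ring
  have h3 : 2 * (x / (v - x)) / (x / (v - x) + 2) = 2 * x / (2 * v - x) := by
    have h4 : x + 2 * (v - x) ≠ 0 := by
      have : 0 < x + 2 * (v - x) := by linarith
      exact this.ne'
    have h5 : 2 * v - x ≠ 0 := by
      have : 0 < 2 * v - x := by linarith
      exact this.ne'
    have h6 : x / (v - x) + 2 = (2 * v - x) / (v - x) := by
      field_simp
      ring
    rw [h6]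
    field_simp
  rw [h2, ← h3]
  linarith

noncomputable def g (x ρ v : ℝ) : ℝ := (v * (v - x) / x) * L x v + (v - ρ)

noncomputable def h (x ρ v : ℝ) : ℝ := ((v - ρ) / x) * L x v

theorem g_deriv (x ρ v : ℝ) (hx : 0 < x) (hv : x < v) :
    HasDerivAt (g x ρ) ((2 * v - x) / x * L x v + 2) v := by
  have hv0 : v ≠ 0 := (hx.trans hv).ne'
  have hvx : v - x ≠ 0 := (sub_pos.2 hv).ne'
  have h1 : HasDerivAt (fun v : ℝ => v * (v - x) / x) ((1 * (v - x) + v * 1) / x) v :=
    ((hasDerivAt_id v).mul ((hasDerivAt_id v).sub_const x)).div_const x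
  have h2 := (h1.mul (L_deriv x v hx hv)).add ((hasDerivAt_id v).sub_const ρ)
  have e : (1 * (v - x) + v * 1) / x * L x v + v * (v - x) / x * (x / (v * (v - x))) + 1 =
      (2 * v - x) / x * L x v + 2 := by
    field_simp
    ring
  rw [← e]
  exact h2

theorem h_deriv (x ρ v : ℝ) (hx : 0 < x) (hv : x < v) :
    HasDerivAt (h x ρ) (g x ρ v / (v * (v - x))) v := by
  have hv0 : v ≠ 0 := (hx.trans hv).ne'
  have hvx : v - x ≠ 0 := (sub_pos.2 hv).ne'
  have h1 : HasDerivAt (fun v : ℝ => (v - ρ) / x) (1 / x) v :=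
    ((hasDerivAt_id v).sub_const ρ).div_const x
  have h2 := h1.mul (L_deriv x v hx hv)
  have e : 1 / x * L x v + (v - ρ) / x * (x / (v * (v - x))) = g x ρ v / (v * (v - x)) := by
    unfold g
    field_simp
  rw [← e]
  exact h2

theorem uni : S_UNI := by
  intro x ρ w hx hx1 hρ hw1 hw2
  have hxw : x < w := by linarith
  have hg : AntitoneOn (g x ρ) (Set.Icc (ρ + x) 1) := by
    refine antitoneOn_of_deriv_nonpos (convex_Icc _ _) (fun v hv => ?_) (fun v hv => ?_)
      (fun v hv => ?_)
    · exact (g_deriv x ρ v hx (by linarith [hv.1])).continuousAt.continuousWithinAt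
    · have hv' := interior_subset hv
      exact (g_deriv x ρ v hx (by linarith [hv'.1])).differentiableAt.differentiableWithinAt
    · have hv' := interior_subset hv
      have hxv : x < v := by linarith [hv'.1]
      rw [(g_deriv x ρ v hx hxv).deriv]
      have h1 := L_le x v hx hxv
      have h2 : 0 < 2 * v - x := by linarith
      have h3 : (2 * v - x) / x * L x v ≤ (2 * v - x) / x * (-(2 * x / (2 * v - x))) :=
        mul_le_mul_of_nonneg_left h1 (by positivity)
      have h4 : (2 * v - x) / x * (-(2 * x / (2 * v - x))) = -2 := by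
        field_simp
      linarith
  have hL : ∀ v, x < v → (1 - x / v) ^ ((v - ρ) / x) = Real.exp (h x ρ v) := by
    intro v hv
    have hv0 : 0 < v := hx.trans hv
    have : 0 < 1 - x / v := by
      rw [one_sub_div hv0.ne']
      exact div_pos (sub_pos.2 hv) hv0
    rw [Real.rpow_def_of_pos this, h, L, mul_comm]
  have e1 : (1 - x) ^ ((1 - ρ) / x) = Real.exp (h x ρ 1) := by
    rw [← hL 1 hx1, div_one]
  have e2 : ρ / (ρ + x) = Real.exp (h x ρ (ρ + x)) := by
    rw [← hL (ρ + x) (by linarith), add_sub_cancel_left, div_self hx.ne', Real.rpow_one,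
      one_sub_div (by positivity), add_sub_cancel_right]
  rw [hL w hxw, e1, e2]
  have hw : w ∈ Set.Icc (ρ + x) 1 := ⟨hw1, hw2⟩
  rcases le_total 0 (g x ρ w) with hgw | hgw
  · refine min_le_of_left_le (Real.exp_le_exp.2 ?_)
    have hm : MonotoneOn (h x ρ) (Set.Icc (ρ + x) w) := by
      refine monotoneOn_of_deriv_nonneg (convex_Icc _ _) (fun v hv => ?_) (fun v hv => ?_)
        (fun v hv => ?_)
      · exact (h_deriv x ρ v hx (by linarith [hv.1])).continuousAt.continuousWithinAt
      · have hv' := interior_subset hv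
        exact (h_deriv x ρ v hx (by linarith [hv'.1])).differentiableAt.differentiableWithinAt
      · have hv' := interior_subset hv
        have hxv : x < v := by linarith [hv'.1]
        rw [(h_deriv x ρ v hx hxv).deriv]
        have h1 : g x ρ w ≤ g x ρ v := hg ⟨hv'.1, hv'.2.trans hw2⟩ hw hv'.2
        have h2 : 0 < v - x := sub_pos.2 hxv
        have h3 : 0 < v := hx.trans hxv
        exact div_nonneg (hgw.trans h1) (by positivity)
    exact hm ⟨le_rfl, hw1⟩ ⟨hw1, le_rfl⟩ hw1
  · refine min_le_of_right_le (Real.exp_le_exp.2 ?_)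
    have hm : AntitoneOn (h x ρ) (Set.Icc w 1) := by
      refine antitoneOn_of_deriv_nonpos (convex_Icc _ _) (fun v hv => ?_) (fun v hv => ?_)
        (fun v hv => ?_)
      · exact (h_deriv x ρ v hx (by linarith [hv.1])).continuousAt.continuousWithinAt
      · have hv' := interior_subset hv
        exact (h_deriv x ρ v hx (by linarith [hv'.1])).differentiableAt.differentiableWithinAt
      · have hv' := interior_subset hv
        have hxv : x < v := by linarith [hv'.1]
        rw [(h_deriv x ρ v hx hxv).deriv]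
        have h1 : g x ρ v ≤ g x ρ w := hg hw ⟨hw1.trans hv'.1, hv'.2⟩ hv'.1
        have h2 : 0 < v - x := sub_pos.2 hxv
        have h3 : 0 < v := hx.trans hxv
        exact div_nonpos_of_nonpos_of_nonneg (h1.trans hgw) (by positivity)
    exact hm ⟨le_rfl, hw2⟩ ⟨hw2, le_rfl⟩ hw2

end Pool.Agent.W816.SAM.Uni
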